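import Pool.Agent.Helper34.Dep.Defs
import Mathlib.FieldTheory.PurelyInseparable.PerfectClosure
import Mathlib.Combinatorics.SimpleGraph.Metric

/-!
# DEP-GRP: a block of embeddings with a spanning tree of relations
-/

set_option autoImplicit false

namespace Pool.Agent.Helper34.Dep

open Polynomial IntermediateField
open scoped Polynomial.Bivariate

section swap

variable {R : Type} [CommRing R]

lemma coeff_swap (p : R[X][Y]) (i j : ℕ) :
    ((Bivariate.swap p).coeff i).coeff j = (p.coeff j).coeff i := by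
  induction p using Polynomial.induction_on' with
  | add p q hp hq => rw [map_add, coeff_add, coeff_add, coeff_add, coeff_add, hp, hq]
  | monomial n f =>
    rw [Bivariate.swap_monomial, coeff_mul_C, coeff_map, coeff_C_mul, coeff_X_pow, coeff_monomial]
    by_cases h : n = j
    · rw [if_pos h, if_pos h.symm, mul_one]
    · rw [if_neg h, if_neg (fun h' => h h'.symm), mul_zero, coeff_zero]

lemma biDeg_swap {p : R[X][Y]} {m : ℕ} (h : BiDeg p m) : BiDeg (Bivariate.swap p) m := by
  refine ⟨?_, fun i => ?_⟩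
  · rw [natDegree_le_iff_coeff_eq_zero]
    intro i hi
    ext j
    rw [coeff_swap, coeff_zero]
    exact coeff_eq_zero_of_natDegree_lt (lt_of_le_of_lt (h.2 j) hi)
  · rw [natDegree_le_iff_coeff_eq_zero]
    intro j hj
    rw [coeff_swap, coeff_eq_zero_of_natDegree_lt (lt_of_le_of_lt h.1 hj), coeff_zero]

lemma evalEval_swap (p : R[X][Y]) (a b : R) :
    (Bivariate.swap p).evalEval a b = p.evalEval b a := by
  have := Bivariate.aevalAeval_swap (R := R) (A := R) a b p
  rwa [coe_aevalAeval_eq_evalEval, coe_aevalAeval_eq_evalEval] at this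

lemma biDeg_map {S : Type} [CommRing S] (f : R →+* S) {p : R[X][Y]} {m : ℕ} (h : BiDeg p m) :
    BiDeg (p.map (mapRingHom f)) m := by
  refine ⟨natDegree_map_le.trans h.1, fun i => ?_⟩
  rw [coeff_map, coe_mapRingHom]
  exact natDegree_map_le.trans (h.2 i)

end swap

section galois

variable {F L : Type} [Field F] [Field L] [Algebra F L] [Algebra.IsAlgebraic F L]

lemma isAlgebraic_closure : Algebra.IsAlgebraic F (AlgebraicClosure L) :=
  Algebra.IsAlgebraic.trans F L (AlgebraicClosure L)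

lemma normal_closure : Normal F (AlgebraicClosure L) := by
  have := isAlgebraic_closure (F := F) (L := L)
  have : IsAlgClosure F (AlgebraicClosure L) := ⟨inferInstance, inferInstance⟩
  infer_instance

/-- transitivity on embeddings -/
lemma exists_ext (σ : L →ₐ[F] AlgebraicClosure L) :
    ∃ g : AlgebraicClosure L ≃ₐ[F] AlgebraicClosure L,
      ∀ a, g (algebraMap L (AlgebraicClosure L) a) = σ a := by
  have h1 := isAlgebraic_closure (F := F) (L := L)
  obtain ⟨φ, hφ⟩ := IsAlgClosed.surjective_domRestrict_of_isAlgebraic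
    (K := F) (L := L) (M := AlgebraicClosure L) (E := AlgebraicClosure L) σ
  have hb : Function.Bijective φ := Algebra.IsAlgebraic.algHom_bijective φ
  refine ⟨AlgEquiv.ofBijective φ hb, fun a => ?_⟩
  rw [AlgEquiv.ofBijective_apply, ← hφ]
  rfl

lemma pow_mem_of_fixed (a : AlgebraicClosure L)
    (h : ∀ g : AlgebraicClosure L ≃ₐ[L] AlgebraicClosure L, g a = a) :
    ∃ e : ℕ, ∃ b : L, a ^ (ringExpChar L ^ e) = algebraMap L (AlgebraicClosure L) b := by
  classical
  have hn : Normal L (AlgebraicClosure L) := inferInstance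
  have hi : IsAlgebraic L a := Algebra.IsAlgebraic.isAlgebraic a
  have h1 : a ∈ perfectClosure L (AlgebraicClosure L) := by
    rw [mem_perfectClosure_iff_natSepDegree_eq_one,
      natSepDegree_eq_of_isAlgClosed (AlgebraicClosure L), Finset.card_eq_one]
    refine ⟨a, ?_⟩
    ext y
    rw [Multiset.mem_toFinset, Finset.mem_singleton, mem_aroots]
    constructor
    · rintro ⟨-, hy⟩
      obtain ⟨g, hg⟩ := minpoly.exists_algEquiv_of_root' hi hy
      rw [← hg, h g]
    · rintro rfl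
      exact ⟨minpoly.ne_zero hi.isIntegral, minpoly.aeval _ _⟩
  rw [mem_perfectClosure_iff] at h1
  obtain ⟨e, b, hb⟩ := h1
  exact ⟨e, b, hb.symm⟩

end galois

section graph

lemma exists_closer {V : Type} (G : SimpleGraph V) {u v : V} (h : G.Reachable u v) (hne : v ≠ u) :
    ∃ w, G.Adj w v ∧ G.Reachable u w ∧ G.dist u w < G.dist u v := by
  obtain ⟨p, hp⟩ := h.symm.exists_walk_length_eq_dist
  cases p with
  | nil => exact absurd rfl hne
  | cons hadj q =>
    rename_i w
    refine ⟨w, hadj.symm, q.reachable.symm, ?_⟩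
    rw [SimpleGraph.Walk.length_cons] at hp
    have h1 := SimpleGraph.dist_le q
    rw [SimpleGraph.dist_comm (u := u) (v := w), SimpleGraph.dist_comm (u := u) (v := v)]
    omega

variable {F L W : Type} [Field F] [Field L] [Algebra F L] [Field W] [Algebra F W]

/-- the action on embeddings -/
def act (g : W ≃ₐ[F] W) (s : L →ₐ[F] W) : L →ₐ[F] W := (g : W →ₐ[F] W).comp s

lemma act_apply (g : W ≃ₐ[F] W) (s : L →ₐ[F] W) (a : L) : act g s a = g (s a) := rfl

lemma act_mul (g h : W ≃ₐ[F] W) (s : L →ₐ[F] W) : act (g * h) s = act g (act h s) := rfl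

lemma act_one (s : L →ₐ[F] W) : act (1 : W ≃ₐ[F] W) s = s := rfl

lemma act_inj (g : W ≃ₐ[F] W) {s s' : L →ₐ[F] W} (h : act g s = act g s') : s = s' := by
  ext a
  exact g.injective (by rw [← act_apply, ← act_apply, h])

/-- the graph of translates of one pair -/
def Gr (i τ : L →ₐ[F] W) : SimpleGraph (L →ₐ[F] W) where
  Adj s s' := s ≠ s' ∧ ∃ g : W ≃ₐ[F] W, (s = act g i ∧ s' = act g τ) ∨ (s' = act g i ∧ s = act g τ)
  symm := ⟨fun _ _ h => ⟨h.1.symm, h.2.imp fun _ hg => hg.symm⟩⟩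
  loopless := ⟨fun _ h => h.1 rfl⟩

lemma reach_act (i τ : L →ₐ[F] W) (g : W ≃ₐ[F] W) {s s' : L →ₐ[F] W}
    (h : (Gr i τ).Reachable s s') : (Gr i τ).Reachable (act g s) (act g s') := by
  let f : Gr i τ →g Gr i τ :=
    ⟨act g, fun {a b} hab => ⟨fun h => hab.1 (act_inj g h), by
      obtain ⟨-, g', hg'⟩ := hab
      refine ⟨g * g', ?_⟩
      rcases hg' with ⟨h1, h2⟩ | ⟨h1, h2⟩
      · exact Or.inl ⟨by rw [h1, act_mul], by rw [h2, act_mul]⟩
      · exact Or.inr ⟨by rw [h1, act_mul], by rw [h2, act_mul]⟩⟩⟩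
  exact h.map f

/-- the stabiliser of the component of `i` -/
def Stab (i τ : L →ₐ[F] W) : Subgroup (W ≃ₐ[F] W) where
  carrier := {g | (Gr i τ).Reachable i (act g i)}
  mul_mem' := by
    intro a b ha hb
    rw [Set.mem_ofPred_eq] at ha hb ⊢
    rw [act_mul]
    exact ha.trans (reach_act i τ a hb)
  one_mem' := by
    rw [Set.mem_ofPred_eq, act_one]
  inv_mem' := by
    intro a ha
    rw [Set.mem_ofPred_eq] at ha ⊢
    have := reach_act i τ a⁻¹ ha
    rw [← act_mul, inv_mul_cancel, act_one] at this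
    exact this.symm

lemma mem_Stab {i τ : L →ₐ[F] W} {g : W ≃ₐ[F] W} :
    g ∈ Stab i τ ↔ (Gr i τ).Reachable i (act g i) := Iff.rfl

lemma reach_of_mem {i τ : L →ₐ[F] W} {g : W ≃ₐ[F] W} (hg : g ∈ Stab i τ) {s : L →ₐ[F] W}
    (hs : (Gr i τ).Reachable i s) : (Gr i τ).Reachable i (act g s) :=
  (mem_Stab.mp hg).trans (reach_act i τ g hs)

end graph

theorem grp_aux {F L : Type} [Field F] [Field L] [Algebra F L]
    [FiniteDimensional F L] (n : ℕ) (hn : Module.finrank F L ≤ n)
    (σ τ : L →ₐ[F] AlgebraicClosure L) (hst : σ ≠ τ) (m N : ℕ)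
    (P : (AlgebraicClosure L)[X][Y]) (hP : P ≠ 0) (hm : BiDeg P m) (x : ℕ → L)
    (hx : ∀ j ≤ N, P.evalEval (σ (x j)) (τ (x j)) = 0) :
    ∃ (ι : Type) (_ : Fintype ι) (emb : ι → (L →ₐ[F] AlgebraicClosure L)) (s₀ : ι)
      (rk : ι → ℕ) (par : ι → ι) (Q : ι → (AlgebraicClosure L)[X][Y])
      (Γ : Subgroup (AlgebraicClosure L ≃ₐ[F] AlgebraicClosure L))
      (L₀ : IntermediateField F L),
      Fintype.card ι ≤ n ∧ (∀ a, emb s₀ a = algebraMap L (AlgebraicClosure L) a) ∧
      (∀ s, s ≠ s₀ → rk (par s) < rk s ∧ Q s ≠ 0 ∧ BiDeg (Q s) m ∧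
        ∀ j ≤ N, (Q s).evalEval (emb (par s) (x j)) (emb s (x j)) = 0) ∧
      (∀ g ∈ Γ, ∃ π : Equiv.Perm ι, ∀ s a, emb (π s) a = g (emb s a)) ∧
      L₀ ≠ ⊤ ∧
      (∀ a : AlgebraicClosure L, (∀ g ∈ Γ, g a = a) → ∃ e : ℕ, ∃ b ∈ L₀,
        a ^ (ringExpChar L ^ e) = algebraMap L (AlgebraicClosure L) b) := by
  classical
  -- normalise
  obtain ⟨g₀, hg₀⟩ := exists_ext (F := F) (L := L) σ
  let i : L →ₐ[F] AlgebraicClosure L := IsScalarTower.toAlgHom F L (AlgebraicClosure L)
  have hi : ∀ a, i a = algebraMap L (AlgebraicClosure L) a := fun a => rfl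
  have hσ : σ = act g₀ i := by
    ext a
    rw [act_apply, hi, hg₀]
  let τ' : L →ₐ[F] AlgebraicClosure L := act g₀⁻¹ τ
  have hτ' : act g₀ τ' = τ := by
    change act g₀ (act g₀⁻¹ τ) = τ
    rw [← act_mul, mul_inv_cancel, act_one]
  have hne : i ≠ τ' := by
    intro h
    apply hst
    rw [hσ, h, hτ']
  -- translates of the relation
  have hrel : ∀ g : AlgebraicClosure L ≃ₐ[F] AlgebraicClosure L,
      ∃ q : (AlgebraicClosure L)[X][Y], q ≠ 0 ∧ BiDeg q m ∧
      ∀ j ≤ N, q.evalEval (act g i (x j)) (act g τ' (x j)) = 0 := by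
    intro g
    let f : AlgebraicClosure L →+* AlgebraicClosure L :=
      ((g * g₀⁻¹ : AlgebraicClosure L ≃ₐ[F] AlgebraicClosure L) :
        AlgebraicClosure L →+* AlgebraicClosure L)
    refine ⟨P.map (mapRingHom f), ?_, biDeg_map f hm, fun j hj => ?_⟩
    · rw [Ne, Polynomial.map_eq_zero_iff (map_injective f f.injective)]
      exact hP
    · have h1 : act g i (x j) = f (σ (x j)) := by
        change g (i (x j)) = g (g₀⁻¹ (σ (x j)))
        rw [hσ]
        congr 1
        exact (AlgEquiv.symm_apply_apply g₀ _).symm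
      have h2 : act g τ' (x j) = f (τ (x j)) := rfl
      rw [h1, h2, map_mapRingHom_evalEval, hx j hj, map_zero]
  -- the block
  have hfin : Finite (L →ₐ[F] AlgebraicClosure L) := inferInstance
  let ι := {s : L →ₐ[F] AlgebraicClosure L // (Gr i τ').Reachable i s}
  have hfι : Finite ι := inferInstance
  let s₀ : ι := ⟨i, SimpleGraph.Reachable.refl _⟩
  have hpar : ∀ s : ι, ∃ (p : ι) (q : (AlgebraicClosure L)[X][Y]), s ≠ s₀ →
      ((Gr i τ').dist i p.1 < (Gr i τ').dist i s.1 ∧ q ≠ 0 ∧ BiDeg q m ∧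
        ∀ j ≤ N, q.evalEval (p.1 (x j)) (s.1 (x j)) = 0) := by
    intro s
    by_cases hs : s = s₀
    · exact ⟨s, 0, fun h => absurd hs h⟩
    · obtain ⟨w, hadj, hw, hlt⟩ := exists_closer (Gr i τ') s.2 (fun h => hs (Subtype.ext h))
      obtain ⟨-, g, h | h⟩ := hadj
      · obtain ⟨q, h1, h2, h3⟩ := hrel g
        refine ⟨⟨w, hw⟩, q, fun _ => ⟨hlt, h1, h2, ?_⟩⟩
        intro j hj
        change q.evalEval (w (x j)) (s.1 (x j)) = 0
        rw [h.1, h.2]
        exact h3 j hj
      · obtain ⟨q, h1, h2, h3⟩ := hrel g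
        refine ⟨⟨w, hw⟩, Bivariate.swap q, fun _ => ⟨hlt, ?_, biDeg_swap h2, ?_⟩⟩
        · intro h0
          exact h1 ((EmbeddingLike.map_eq_zero_iff (f := Bivariate.swap)).mp h0)
        · intro j hj
          rw [evalEval_swap]
          change q.evalEval (s.1 (x j)) (w (x j)) = 0
          rw [h.1, h.2]
          exact h3 j hj
  choose par Q hpar using hpar
  refine ⟨ι, Fintype.ofFinite ι, Subtype.val, s₀, fun s => (Gr i τ').dist i s.1, par, Q,
    Stab i τ', (IntermediateField.fixedField (Stab i τ')).comap i, ?_, fun a => rfl,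
    fun s hs => hpar s hs, ?_, ?_, ?_⟩
  · rw [← @Nat.card_eq_fintype_card ι (Fintype.ofFinite ι)]
    refine le_trans ?_ ((card_algHom_le_finrank F L (AlgebraicClosure L)).trans hn)
    exact Nat.card_le_card_of_injective _ Subtype.val_injective
  · intro g hg
    refine ⟨⟨fun s => ⟨act g s.1, reach_of_mem hg s.2⟩,
      fun s => ⟨act g⁻¹ s.1, reach_of_mem ((Stab i τ').inv_mem hg) s.2⟩, ?_, ?_⟩, fun s a => rfl⟩
    · intro s
      apply Subtype.ext
      change act g⁻¹ (act g s.1) = s.1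
      rw [← act_mul, inv_mul_cancel, act_one]
    · intro s
      apply Subtype.ext
      change act g (act g⁻¹ s.1) = s.1
      rw [← act_mul, mul_inv_cancel, act_one]
  · intro htop
    obtain ⟨g, hg⟩ := exists_ext (F := F) (L := L) τ'
    have hgi : act g i = τ' := by
      ext a
      exact hg a
    have hmem : g ∈ Stab i τ' := by
      rw [mem_Stab, hgi]
      exact SimpleGraph.Adj.reachable ⟨hne, 1, Or.inl ⟨(act_one i).symm, (act_one τ').symm⟩⟩
    apply hne
    ext a
    have h1 : a ∈ (IntermediateField.fixedField (Stab i τ')).comap i := by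
      rw [htop]; exact IntermediateField.mem_top
    rw [← hgi, act_apply]
    have h2 : i a ∈ IntermediateField.fixedField (Stab i τ') := h1
    rw [IntermediateField.mem_fixedField_iff] at h2
    exact (h2 g hmem).symm
  · intro a ha
    obtain ⟨e, b, hb⟩ := pow_mem_of_fixed (L := L) a fun g => by
      have := ha (g.restrictScalars F) (by
        rw [mem_Stab]
        have : act (g.restrictScalars F) i = i := by
          ext c
          exact g.commutes c
        rw [this])
      exact this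
    refine ⟨e, b, ?_, hb⟩
    change i b ∈ IntermediateField.fixedField (Stab i τ')
    rw [IntermediateField.mem_fixedField_iff]
    intro g hg
    rw [hi, ← hb, map_pow, ha g hg]

theorem grp {k L : Type} [Field k] [IsAlgClosed k] [Field L] [Algebra k L] (t : L)
    [FiniteDimensional k⟮t⟯ L] (n : ℕ) (hn : Module.finrank k⟮t⟯ L ≤ n)
    (σ τ : L →ₐ[k⟮t⟯] AlgebraicClosure L) (hst : σ ≠ τ) (m N : ℕ)
    (P : (AlgebraicClosure L)[X][Y]) (hP : P ≠ 0) (hm : BiDeg P m) (x : ℕ → L)
    (hx : ∀ j ≤ N, P.evalEval (σ (x j)) (τ (x j)) = 0) :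
    ∃ (ι : Type) (_ : Fintype ι) (emb : ι → (L →ₐ[k⟮t⟯] AlgebraicClosure L)) (s₀ : ι)
      (rk : ι → ℕ) (par : ι → ι) (Q : ι → (AlgebraicClosure L)[X][Y])
      (Γ : Subgroup (AlgebraicClosure L ≃ₐ[k⟮t⟯] AlgebraicClosure L))
      (L₀ : IntermediateField k⟮t⟯ L),
      Fintype.card ι ≤ n ∧ (∀ a, emb s₀ a = algebraMap L (AlgebraicClosure L) a) ∧
      (∀ s, s ≠ s₀ → rk (par s) < rk s ∧ Q s ≠ 0 ∧ BiDeg (Q s) m ∧
        ∀ j ≤ N, (Q s).evalEval (emb (par s) (x j)) (emb s (x j)) = 0) ∧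
      (∀ g ∈ Γ, ∃ π : Equiv.Perm ι, ∀ s a, emb (π s) a = g (emb s a)) ∧
      L₀ ≠ ⊤ ∧
      (∀ a : AlgebraicClosure L, (∀ g ∈ Γ, g a = a) → ∃ e : ℕ, ∃ b ∈ L₀,
        a ^ (ringExpChar k ^ e) = algebraMap L (AlgebraicClosure L) b) := by
  have hchar : ringExpChar L = ringExpChar k := by
    have := expChar_of_injective_algebraMap (algebraMap k L).injective (ringExpChar k)
    exact ringExpChar.eq L (ringExpChar k)
  rw [← hchar]
  exact grp_aux n hn σ τ hst m N P hP hm x hx

end Pool.Agent.Helper34.Dep
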